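import Pool.Agent.Helper6.NS.Defs

namespace Pool.Agent.Helper7.KU

open CategoryTheory CategoryTheory.Limits CategoryTheory.Pretriangulated Module
open CategoryTheory.Triangulated
open Pool.Agent.Helper6.KE Pool.Agent.Helper6.NS

universe v u w

section LA

variable {K : Type*} [Field K] {V₁ V₂ V₃ : Type*} [AddCommGroup V₁] [Module K V₁]
  [AddCommGroup V₂] [Module K V₂] [AddCommGroup V₃] [Module K V₃]

lemma rank_exact [FiniteDimensional K V₂] (f : V₁ →ₗ[K] V₂) (g : V₂ →ₗ[K] V₃)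
    (h : ∀ x, g x = 0 → ∃ y, x = f y) (h' : ∀ y, g (f y) = 0) :
    finrank K V₂ = finrank K (LinearMap.range f) + finrank K (LinearMap.range g) := by
  have h1 : LinearMap.ker g = LinearMap.range f := by
    ext x
    constructor
    · intro hx
      obtain ⟨y, hy⟩ := h x hx
      exact ⟨y, hy.symm⟩
    · rintro ⟨y, rfl⟩
      exact h' y
  have h2 := LinearMap.finrank_range_add_finrank_ker g
  rw [h1] at h2
  omega

lemma rank_inj (f : V₁ →ₗ[K] V₂) (h : ∀ x, f x = 0 → x = 0) :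
    finrank K (LinearMap.range f) = finrank K V₁ := by
  apply LinearMap.finrank_range_of_inj
  intro x y hxy
  have := h (x - y) (by rw [map_sub, hxy, sub_self])
  exact sub_eq_zero.1 this

lemma rank_surj (f : V₁ →ₗ[K] V₂) (h : ∀ y, ∃ x, y = f x) :
    finrank K (LinearMap.range f) = finrank K V₂ := by
  have h1 : LinearMap.range f = ⊤ := by
    rw [LinearMap.range_eq_top]
    intro y
    obtain ⟨x, hx⟩ := h y
    exact ⟨x, hx.symm⟩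
  rw [h1, finrank_top]

lemma rank_le_of_subset [FiniteDimensional K V₃] (f : V₁ →ₗ[K] V₃) (g : V₂ →ₗ[K] V₃)
    (h : ∀ x, ∃ y, f x = g y) :
    finrank K (LinearMap.range f) ≤ finrank K (LinearMap.range g) := by
  apply Submodule.finrank_mono
  rintro _ ⟨x, rfl⟩
  obtain ⟨y, hy⟩ := h x
  exact ⟨y, hy.symm⟩

lemma rank_comp_le [FiniteDimensional K V₂] (f : V₁ →ₗ[K] V₂) (g : V₂ →ₗ[K] V₃) :
    finrank K (LinearMap.range (g ∘ₗ f)) ≤ finrank K (LinearMap.range f) := by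
  rw [LinearMap.range_comp]
  exact Submodule.finrank_map_le _ _

end LA

variable {C : Type u} [Category.{v} C] [Preadditive C] [HasZeroObject C] [HasShift C ℤ]
  [∀ n : ℤ, (shiftFunctor C n).Additive] [Pretriangulated C]

variable {K : Type w} [Field K] [Linear K C] [∀ n : ℤ, (shiftFunctor C n).Linear K]

/-- post-composition -/
noncomputable abbrev post (K : Type w) [Field K] [Linear K C] (G : C) {X Y : C} (f : X ⟶ Y) :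
    (G ⟶ X) →ₗ[K] (G ⟶ Y) := Linear.rightComp K G f

/-- pre-composition -/
noncomputable abbrev pre (K : Type w) [Field K] [Linear K C] (G : C) {X Y : C} (f : X ⟶ Y) :
    (Y ⟶ G) →ₗ[K] (X ⟶ G) := Linear.leftComp K G f

lemma finrank_shift_two (X Y : C) :
    finrank K (X ⟶ Y⟦(1 : ℤ)⟧⟦(1 : ℤ)⟧) = finrank K (X ⟶ Y⟦(2 : ℤ)⟧) :=
  (Linear.homCongr K (Iso.refl X)
    ((shiftFunctorAdd' C (1 : ℤ) 1 2 (by norm_num)).app Y)).finrank_eq.symm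

/-- M3: the step lemma (linear algebra of three triangles). -/
theorem step (fd : ∀ X Y : C, FiniteDimensional K (X ⟶ Y)) {X Y G : C} (u : X ⟶ Y) (v : Y ⟶ G)
    (w : G ⟶ X⟦(1 : ℤ)⟧) (hT : Triangle.mk u v w ∈ distTriang C) {B₁ B₂ B B₃ H : C}
    (a : B₁ ⟶ B₂) (b : B₂ ⟶ B) (c : B ⟶ B₃) (c' : B₃ ⟶ B₂⟦(1 : ℤ)⟧)
    (h2 : Triangle.mk b c c' ∈ distTriang C) (e : B₂ ⟶ H) (e' : H ⟶ B₁⟦(1 : ℤ)⟧)
    (h3 : Triangle.mk a e e' ∈ distTriang C)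
    (f1 : ∀ f : X ⟶ B, ∃ g : X ⟶ B₁, g ≫ a ≫ b = f)
    (f2 : ∀ f : X ⟶ B⟦(1 : ℤ)⟧, ∃ g : X ⟶ B₂⟦(1 : ℤ)⟧, g ≫ b⟦(1 : ℤ)⟧' = f)
    (v1 : HV G B₃ 0) (v2 : HV G B₁ 2) :
    hd K X B 1 + hd K G B₃ 1 + hd K G H 1 ≤ hd K Y B 1 + hd K G H 2 := by
  have hX := fd X (B⟦(1 : ℤ)⟧)
  have hY := fd Y (B⟦(1 : ℤ)⟧)
  have hG := fd G (B⟦(1 : ℤ)⟧)
  have hG2 := fd G (B₂⟦(1 : ℤ)⟧)
  have hG3 := fd G (B₃⟦(1 : ℤ)⟧)
  have hG22 := fd G (B₂⟦(1 : ℤ)⟧⟦(1 : ℤ)⟧)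
  have hGB := fd G (B⟦(1 : ℤ)⟧⟦(1 : ℤ)⟧)
  have hGH := fd G (H⟦(1 : ℤ)⟧)
  have hGH2 := fd G (H⟦(2 : ℤ)⟧)
  have hGB2 := fd G (B₂⟦(2 : ℤ)⟧)
  have huv : u ≫ v = 0 := comp_distTriang_mor_zero₁₂ _ hT
  have hvw : v ≫ w = 0 := comp_distTriang_mor_zero₂₃ _ hT
  have hwu : w ≫ u⟦(1 : ℤ)⟧' = 0 := comp_distTriang_mor_zero₃₁ _ hT
  have hbc : b ≫ c = 0 := comp_distTriang_mor_zero₁₂ _ h2
  have hcc : c ≫ c' = 0 := comp_distTriang_mor_zero₂₃ _ h2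
  have hcb : c' ≫ b⟦(1 : ℤ)⟧' = 0 := comp_distTriang_mor_zero₃₁ _ h2
  have hae : a ≫ e = 0 := comp_distTriang_mor_zero₁₂ _ h3
  -- the connecting map on `Hom(X, B[1])`
  let δ : (X ⟶ B⟦(1 : ℤ)⟧) →ₗ[K] (G ⟶ B⟦(1 : ℤ)⟧⟦(1 : ℤ)⟧) :=
    (pre K (B⟦(1 : ℤ)⟧⟦(1 : ℤ)⟧) w) ∘ₗ ((shiftFunctor C (1 : ℤ)).mapLinearMap K)
  have hδ : ∀ f, δ f = w ≫ f⟦(1 : ℤ)⟧' := fun f => rfl
  -- contravariant sequence
  have e1 := rank_exact (pre K (B⟦(1 : ℤ)⟧) v) (pre K (B⟦(1 : ℤ)⟧) u)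
    (fun f hf => Triangle.yoneda_exact₂ _ hT f hf)
    (fun f => by
      change u ≫ v ≫ f = 0
      rw [← Category.assoc, huv, zero_comp])
  have e2 := rank_exact (pre K (B⟦(1 : ℤ)⟧) w) (pre K (B⟦(1 : ℤ)⟧) v)
    (fun f hf => Triangle.yoneda_exact₃ _ hT f hf)
    (fun f => by
      change v ≫ w ≫ f = 0
      rw [← Category.assoc, hvw, zero_comp])
  have e3 := rank_exact (pre K (B⟦(1 : ℤ)⟧) u) δ
    (fun f hf => by
      have hf' : w ≫ f⟦(1 : ℤ)⟧' = 0 := hf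
      have key : ∃ g : Y⟦(1 : ℤ)⟧ ⟶ B⟦(1 : ℤ)⟧⟦(1 : ℤ)⟧, f⟦(1 : ℤ)⟧' = (-u⟦(1 : ℤ)⟧') ≫ g :=
        Triangle.yoneda_exact₃ _ (rot_of_distTriang _ hT) (f⟦(1 : ℤ)⟧') hf'
      obtain ⟨g, hg⟩ := key
      obtain ⟨g', hg'⟩ : ∃ g' : Y ⟶ B⟦(1 : ℤ)⟧, (shiftFunctor C (1 : ℤ)).map g' = g :=
        (shiftFunctor C (1 : ℤ)).map_surjective g
      refine ⟨-g', ?_⟩
      apply (shiftFunctor C (1 : ℤ)).map_injective
      have h5 : (shiftFunctor C (1 : ℤ)).map (u ≫ (-g')) = (-u⟦(1 : ℤ)⟧') ≫ g := by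
        rw [Functor.map_comp, Functor.map_neg, Preadditive.neg_comp, Preadditive.comp_neg, hg']
      exact hg.trans h5.symm)
    (fun f => by
      change w ≫ (shiftFunctor C (1 : ℤ)).map (u ≫ f) = 0
      rw [Functor.map_comp, ← Category.assoc, hwu, zero_comp])
  -- covariant sequence of `B₂ → B → B₃`
  have e4 := rank_exact (post K G (b⟦(1 : ℤ)⟧')) (post K G (c⟦(1 : ℤ)⟧'))
    (fun f hf => coyo₂ _ h2 1 f hf)
    (fun f => by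
      change (f ≫ b⟦(1 : ℤ)⟧') ≫ c⟦(1 : ℤ)⟧' = 0
      rw [Category.assoc, ← Functor.map_comp, hbc, Functor.map_zero, comp_zero])
  have e5 := rank_inj (post K G (b⟦(1 : ℤ)⟧'))
    (fun f hf => coyo₁ _ h2 1 0 (by norm_num) v1 f hf)
  have e6 := rank_exact (post K G (c⟦(1 : ℤ)⟧')) (post K G (c'⟦(1 : ℤ)⟧'))
    (fun f hf => coyo₂ _ (rot_of_distTriang _ h2) 1 f hf)
    (fun f => by
      change (f ≫ c⟦(1 : ℤ)⟧') ≫ c'⟦(1 : ℤ)⟧' = 0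
      rw [Category.assoc, ← Functor.map_comp, hcc, Functor.map_zero, comp_zero])
  have e7 := rank_exact (post K G (c'⟦(1 : ℤ)⟧')) (post K G (b⟦(1 : ℤ)⟧'⟦(1 : ℤ)⟧'))
    (fun f hf => by
      have hf' : f ≫ b⟦(1 : ℤ)⟧'⟦(1 : ℤ)⟧' = 0 := hf
      refine coyo₂ _ (rot_of_distTriang _ (rot_of_distTriang _ h2)) 1 f ?_
      change f ≫ (-b⟦(1 : ℤ)⟧')⟦(1 : ℤ)⟧' = 0
      rw [Functor.map_neg, Preadditive.comp_neg, hf', neg_zero])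
    (fun f => by
      change (f ≫ c'⟦(1 : ℤ)⟧') ≫ b⟦(1 : ℤ)⟧'⟦(1 : ℤ)⟧' = 0
      rw [Category.assoc, ← Functor.map_comp, hcb, Functor.map_zero, comp_zero])
  -- covariant sequence of `B₁ → B₂ → H`
  have e8 := rank_exact (post K G (a⟦(1 : ℤ)⟧')) (post K G (e⟦(1 : ℤ)⟧'))
    (fun f hf => coyo₂ _ h3 1 f hf)
    (fun f => by
      change (f ≫ a⟦(1 : ℤ)⟧') ≫ e⟦(1 : ℤ)⟧' = 0
      rw [Category.assoc, ← Functor.map_comp, hae, Functor.map_zero, comp_zero])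
  have e9 := rank_surj (post K G (e⟦(1 : ℤ)⟧'))
    (fun f => by
      have h0 : f ≫ e'⟦(1 : ℤ)⟧' = 0 := (v2.shift_right (1 : ℤ) 1 (by norm_num)) _
      exact coyo₂ _ (rot_of_distTriang _ h3) 1 f h0)
  have e10 : finrank K (G ⟶ B₂⟦(2 : ℤ)⟧) ≤ finrank K (G ⟶ H⟦(2 : ℤ)⟧) := by
    have h := rank_inj (post K G (e⟦(2 : ℤ)⟧'))
      (fun f hf => by
        obtain ⟨g, hg⟩ := coyo₂ _ h3 2 f hf
        have hg0 : g = 0 := v2 g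
        rw [hg, hg0]
        exact zero_comp)
    rw [← h]
    exact Submodule.finrank_le _
  have e11 := finrank_shift_two (K := K) G B₂
  -- comparison of ranks
  have c1 : finrank K (LinearMap.range δ) ≤
      finrank K (LinearMap.range (post K G (b⟦(1 : ℤ)⟧'⟦(1 : ℤ)⟧'))) := by
    apply rank_le_of_subset
    intro f
    obtain ⟨g, hg⟩ := f2 f
    refine ⟨w ≫ g⟦(1 : ℤ)⟧', ?_⟩
    rw [hδ]
    change _ = (w ≫ g⟦(1 : ℤ)⟧') ≫ b⟦(1 : ℤ)⟧'⟦(1 : ℤ)⟧'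
    rw [← hg, Functor.map_comp, Category.assoc]
  have c2 : finrank K (LinearMap.range (pre K (B⟦(1 : ℤ)⟧) w)) ≤
      finrank K (LinearMap.range (post K G (a⟦(1 : ℤ)⟧'))) := by
    refine le_trans (rank_le_of_subset _ ((post K G (b⟦(1 : ℤ)⟧')) ∘ₗ (post K G (a⟦(1 : ℤ)⟧'))) ?_)
      (rank_comp_le _ _)
    intro f
    obtain ⟨f', rfl⟩ := (shiftFunctor C (1 : ℤ)).map_surjective f
    obtain ⟨g, hg⟩ := f1 f'
    refine ⟨w ≫ g⟦(1 : ℤ)⟧', ?_⟩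
    change w ≫ (shiftFunctor C (1 : ℤ)).map f' = ((w ≫ g⟦(1 : ℤ)⟧') ≫ a⟦(1 : ℤ)⟧') ≫ b⟦(1 : ℤ)⟧'
    rw [← hg, Functor.map_comp, Functor.map_comp]
    simp only [Category.assoc]
  unfold hd
  omega

end Pool.Agent.Helper7.KU
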